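import Mathlib

set_option autoImplicit false

namespace Pool.Agent.Results.MP_02a1b3_co.Small

open Finset

/-- The word `w` of length `L` over `[n]` contains the permutation `π` as a subsequence. -/
def Contains {n L : ℕ} (w : Fin L → Fin n) (π : Equiv.Perm (Fin n)) : Prop :=
  ∃ i : Fin n → Fin L, StrictMono i ∧ ∀ j, w (i j) = π j

/-- Lengths of words over `[n]` containing at least `m` distinct permutations of `[n]`. -/
def lengths (n m : ℕ) : Set ℕ :=
  {L | ∃ w : Fin L → Fin n, m ≤ Set.ncard {π : Equiv.Perm (Fin n) | Contains w π}}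

lemma card_le_prod {n L : ℕ} (w : Fin L → Fin n) :
    Set.ncard {π : Equiv.Perm (Fin n) | Contains w π} ≤
      ∏ a : Fin n, (univ.filter (fun x => w x = a)).card := by
  classical
  rw [← Fintype.card_piFinset, ← Set.ncard_coe_finset]
  have hch : ∀ π : Equiv.Perm (Fin n), Contains w π →
      ∃ i : Fin n → Fin L, StrictMono i ∧ ∀ j, w (i j) = π j := fun π h => h
  by_cases hne : Nonempty (Fin n → Fin L)
  · choose! I hI using hch
    refine Set.ncard_le_ncard_of_injOn (fun π a => I π (π.symm a)) ?_ ?_ (Finset.finite_toSet _)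
    · intro π hπ
      simp only [Finset.mem_coe, Fintype.mem_piFinset, Finset.mem_filter, Finset.mem_univ,
        true_and]
      intro a
      rw [(hI π hπ).2]; simp
    · intro π hπ σ hσ h
      have hr : Set.range (I π) = Set.range (I σ) := by
        have h1 : Set.range (I π) = Set.range (fun a => I π (π.symm a)) :=
          (π.symm.surjective.range_comp (I π)).symm
        have h2 : Set.range (I σ) = Set.range (fun a => I σ (σ.symm a)) :=
          (σ.symm.surjective.range_comp (I σ)).symm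
        rw [h1, h2]
        exact congrArg Set.range h
      have he : I π = I σ := ((hI π hπ).1.range_inj (hI σ hσ).1).1 hr
      ext j
      rw [← (hI π hπ).2 j, ← (hI σ hσ).2 j, he]
  · have : {π : Equiv.Perm (Fin n) | Contains w π} = ∅ := by
      ext π
      simp only [Set.mem_ofPred_eq, Set.mem_empty_iff_false, iff_false]
      rintro ⟨i, -⟩
      exact hne ⟨i⟩
    rw [this]; simp

lemma sum_fib {n L : ℕ} (w : Fin L → Fin n) :
    ∑ a : Fin n, (univ.filter (fun x => w x = a)).card = L := by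
  classical
  rw [← Finset.card_eq_sum_card_fiberwise (s := univ) (t := univ) (f := w) (by intro x _; simp)]
  simp

lemma two_mul_le (m : ℕ) : m * 2 ≤ 2 ^ m := by
  rcases m with _ | m
  · simp
  · have := Nat.lt_two_pow_self (n := m)
    rw [pow_succ]; omega

lemma card_mul_le {n L : ℕ} (w : Fin L → Fin n) :
    Set.ncard {π : Equiv.Perm (Fin n) | Contains w π} * 2 ^ n ≤ 2 ^ L := by
  classical
  calc _ ≤ (∏ a : Fin n, (univ.filter (fun x => w x = a)).card) * 2 ^ n :=
        Nat.mul_le_mul_right _ (card_le_prod w)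
    _ = ∏ a : Fin n, ((univ.filter (fun x => w x = a)).card * 2) := by
        rw [Finset.prod_mul_distrib]; simp
    _ ≤ ∏ a : Fin n, 2 ^ (univ.filter (fun x => w x = a)).card :=
        Finset.prod_le_prod' (fun a _ => two_mul_le _)
    _ = 2 ^ L := by rw [Finset.prod_pow_eq_pow_sum, sum_fib]

/-- The word `0,1,…,n-1,0,1,…,k-1`. -/
def word (n k : ℕ) (hk : k < n) (x : Fin (n + k)) : Fin n :=
  if h : x.1 < n then ⟨x.1, h⟩ else ⟨x.1 - n, by have := x.2; omega⟩

def pos (n k : ℕ) (S : Finset (Fin k)) (a : Fin n) : Fin (n + k) :=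
  if h : ∃ b ∈ S, b.1 = a.1 then
    ⟨n + a.1, by obtain ⟨b, -, hb⟩ := h; have := b.2; omega⟩
  else ⟨a.1, by have := a.2; omega⟩

lemma word_pos (n k : ℕ) (hk : k < n) (S : Finset (Fin k)) (a : Fin n) :
    word n k hk (pos n k S a) = a := by
  unfold pos
  split_ifs with h
  · unfold word
    rw [dif_neg (by simp)]
    ext; simp
  · unfold word
    rw [dif_pos a.2]

lemma pos_inj (n k : ℕ) (hk : k < n) (S : Finset (Fin k)) : Function.Injective (pos n k S) :=
  fun a b h => by rw [← word_pos n k hk S a, h, word_pos]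

lemma sm (n k : ℕ) (hk : k < n) (S : Finset (Fin k)) :
    StrictMono (pos n k S ∘ Tuple.sort (pos n k S)) :=
  (Tuple.monotone_sort _).strictMono_of_injective
    ((pos_inj n k hk S).comp (Tuple.sort (pos n k S)).injective)

lemma mem_iff (n k : ℕ) (hk : k < n) (S : Finset (Fin k)) (b : Fin k) :
    b ∈ S ↔ (Tuple.sort (pos n k S)).symm ⟨n - 1, by omega⟩ <
      (Tuple.sort (pos n k S)).symm ⟨b.1, by have := b.2; omega⟩ := by
  rw [← (sm n k hk S).lt_iff_lt]
  simp only [Function.comp, Equiv.apply_symm_apply]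
  have hb := b.2
  have h1 : ¬ ∃ c ∈ S, c.1 = n - 1 := by
    rintro ⟨c, -, hc⟩
    have := c.2
    omega
  unfold pos
  rw [dif_neg h1]
  split_ifs with h
  · obtain ⟨c, hc, hcb⟩ := h
    have : c = b := Fin.ext hcb
    subst this
    simp only [Fin.mk_lt_mk]
    exact ⟨fun _ => by omega, fun _ => hc⟩
  · simp only [Fin.mk_lt_mk]
    exact ⟨fun hS => (h ⟨b, hS, rfl⟩).elim, fun h' => by omega⟩

lemma upper (n k : ℕ) (hk : k < n) :
    2 ^ k ≤ Set.ncard {π : Equiv.Perm (Fin n) | Contains (word n k hk) π} := by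
  classical
  have hc : Set.ncard (Set.univ : Set (Finset (Fin k))) = 2 ^ k := by
    rw [Set.ncard_univ, Nat.card_eq_fintype_card]; simp
  rw [← hc]
  refine Set.ncard_le_ncard_of_injOn (fun S => Tuple.sort (pos n k S)) ?_ ?_ (Set.toFinite _)
  · intro S _
    exact ⟨_, sm n k hk S, fun j => word_pos n k hk S _⟩
  · intro S _ T _ h
    ext b
    have h' : Tuple.sort (pos n k S) = Tuple.sort (pos n k T) := h
    rw [mem_iff n k hk S b, mem_iff n k hk T b, h']

lemma amgm {n L : ℕ} (w : Fin L → Fin n) :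
    Set.ncard {π : Equiv.Perm (Fin n) | Contains w π} * n ^ n ≤ L ^ n := by
  classical
  rcases Nat.eq_zero_or_pos n with rfl | hn
  · have := card_le_prod w
    simpa using this
  have h1 := card_le_prod w
  set c : Fin n → ℕ := fun a => (univ.filter (fun x => w x = a)).card with hc
  have hs : ∑ a, c a = L := sum_fib w
  have hn' : (0 : ℝ) < n := by exact_mod_cast hn
  have h := Real.geom_mean_le_arith_mean_weighted (univ : Finset (Fin n)) (fun _ => (1 / n : ℝ))
    (fun a => (c a : ℝ)) (by intros; positivity) (by simp; field_simp) (by intros; positivity)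
  have h3 : (∏ i, (c i : ℝ) ^ (1 / n : ℝ)) ^ n = ∏ i, (c i : ℝ) := by
    rw [← Finset.prod_pow]
    apply Finset.prod_congr rfl
    intro i _
    rw [one_div]
    exact Real.rpow_inv_natCast_pow (by positivity) hn.ne'
  have h4 : ∑ i, (1 / n : ℝ) * (c i : ℝ) = L / n := by
    rw [← Finset.mul_sum, ← Nat.cast_sum, hs]; ring
  have h5 : (∏ i, (c i : ℝ)) ≤ ((L : ℝ) / n) ^ n := by
    rw [← h3, ← h4]
    exact pow_le_pow_left₀ (Finset.prod_nonneg (fun i _ => by positivity)) h n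
  rw [div_pow, le_div_iff₀ (by positivity)] at h5
  have h6 : (∏ i, c i) * n ^ n ≤ L ^ n := by exact_mod_cast h5
  exact (Nat.mul_le_mul_right _ h1).trans h6

/-- The word `(0,1,…,n-1)` repeated `r` times. -/
def rep (n r : ℕ) (x : Fin (r * n)) : Fin n := (finProdFinEquiv.symm x).2

def ps {n r : ℕ} (f : Fin n → Fin r) (a : Fin n) : Fin (r * n) := finProdFinEquiv (f a, a)

lemma rep_ps {n r : ℕ} (f : Fin n → Fin r) (a : Fin n) : rep n r (ps f a) = a := by
  simp only [rep, ps, Equiv.symm_apply_apply]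

lemma ps_val {n r : ℕ} (f : Fin n → Fin r) (a : Fin n) : (ps f a).1 = a.1 + n * (f a).1 := rfl

lemma ps_sm {n r : ℕ} (f : Fin n → Fin r) : StrictMono (ps f ∘ Tuple.sort (ps f)) :=
  (Tuple.monotone_sort _).strictMono_of_injective
    ((Function.LeftInverse.injective (rep_ps f)).comp (Tuple.sort (ps f)).injective)

def sh {n r : ℕ} (f : Fin n → Fin r) (j : Fin n) : Fin (r + n) :=
  ⟨(f (Tuple.sort (ps f) j)).1 + j.1, Nat.add_lt_add (f _).2 j.2⟩

lemma sh_sm {n r : ℕ} (f : Fin n → Fin r) : StrictMono (sh f) := by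
  intro j k hjk
  have h := ps_sm f hjk
  simp only [Function.comp, Fin.lt_def, ps_val] at h
  have hjk' : j.1 < k.1 := hjk
  have hle : (f (Tuple.sort (ps f) j)).1 ≤ (f (Tuple.sort (ps f) k)).1 := by
    by_contra hc
    have h1 : (f (Tuple.sort (ps f) k)).1 + 1 ≤ (f (Tuple.sort (ps f) j)).1 := by omega
    have h2 := Nat.mul_le_mul_left n h1
    have h3 := (Tuple.sort (ps f) k).2
    rw [mul_add, mul_one] at h2
    omega
  simp only [sh, Fin.mk_lt_mk]
  omega

lemma rep_count (n r : ℕ) :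
    r ^ n ≤ Set.ncard {π : Equiv.Perm (Fin n) | Contains (rep n r) π} * (r + n).choose n := by
  classical
  have h1 : Set.ncard (Set.univ : Set (Fin n → Fin r)) = r ^ n := by
    rw [Set.ncard_univ, Nat.card_eq_fintype_card]; simp
  have h2 : Set.ncard ((Finset.powersetCard n (univ : Finset (Fin (r + n))) :
      Finset (Finset (Fin (r + n)))) : Set (Finset (Fin (r + n)))) = (r + n).choose n := by
    rw [Set.ncard_coe_finset, Finset.card_powersetCard]; simp
  rw [← h1, ← h2, ← Set.ncard_prod]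
  refine Set.ncard_le_ncard_of_injOn
    (fun f => (Tuple.sort (ps f), univ.image (sh f))) ?_ ?_ (Set.toFinite _)
  · intro f _
    refine ⟨⟨_, ps_sm f, fun j => rep_ps f _⟩, ?_⟩
    simp only [Finset.mem_coe, Finset.mem_powersetCard]
    refine ⟨Finset.subset_univ _, ?_⟩
    rw [Finset.card_image_of_injective _ (sh_sm f).injective]; simp
  · intro f _ g _ h
    have ha : Tuple.sort (ps f) = Tuple.sort (ps g) := congrArg Prod.fst h
    have hb : univ.image (sh f) = univ.image (sh g) := congrArg Prod.snd h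
    have hr : Set.range (sh f) = Set.range (sh g) := by
      have := congrArg (fun s : Finset (Fin (r + n)) => (s : Set (Fin (r + n)))) hb
      simpa using this
    have he : sh f = sh g := ((sh_sm f).range_inj (sh_sm g)).1 hr
    funext a
    obtain ⟨j, rfl⟩ := (Tuple.sort (ps f)).surjective a
    have := congrArg Fin.val (congrFun he j)
    simp only [sh] at this
    rw [← ha] at this
    exact Fin.ext (by omega)

lemma rep_all (n r : ℕ) (h : n ≤ r) (π : Equiv.Perm (Fin n)) : Contains (rep n r) π := by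
  refine ⟨fun j => finProdFinEquiv (Fin.castLE h j, π j), ?_, fun j => ?_⟩
  · intro j k hjk
    have hjk' : j.1 + 1 ≤ k.1 := hjk
    have h2 := Nat.mul_le_mul_left n hjk'
    have h3 := (π j).2
    rw [mul_add, mul_one] at h2
    change (π j).1 + n * j.1 < (π k).1 + n * k.1
    omega
  · simp only [rep, Equiv.symm_apply_apply]

lemma small (n m : ℕ) (hm : 1 ≤ m) (hn : 1 ≤ n) (hmn : m ≤ 2 ^ (n - 1)) :
    IsLeast (lengths n m) (n + Nat.clog 2 m) := by
  have hk : Nat.clog 2 m < n := by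
    have := (Nat.clog_le_iff_le_pow (b := 2) (by norm_num) (x := m) (y := n - 1)).2 hmn
    omega
  constructor
  · exact ⟨word n _ hk, (Nat.le_pow_clog (by norm_num) m).trans (upper n _ hk)⟩
  · rintro L ⟨w, hw⟩
    have h1 : m * 2 ^ n ≤ 2 ^ L := (Nat.mul_le_mul_right _ hw).trans (card_mul_le w)
    have h2 : n ≤ L := by
      have : 2 ^ n ≤ 2 ^ L := le_trans (Nat.le_mul_of_pos_left _ hm) h1
      exact (Nat.pow_le_pow_iff_right (by norm_num)).1 this
    obtain ⟨d, rfl⟩ := Nat.exists_eq_add_of_le h2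
    have h3 : m ≤ 2 ^ d := by
      rw [pow_add, mul_comm] at h1
      exact Nat.le_of_mul_le_mul_left h1 (by positivity)
    have := (Nat.clog_le_iff_le_pow (b := 2) (by norm_num) (x := m) (y := d)).2 h3
    omega

lemma bounds (n m : ℕ) (hn : 1 ≤ n) (hm : 1 ≤ m) (hmn : m ≤ n.factorial) :
    (m ≤ 2 ^ (n - 1) → IsLeast (lengths n m) (n + Nat.clog 2 m)) ∧
    (∀ L ∈ lengths n m, m * n ^ n ≤ L ^ n) ∧
    (∀ r : ℕ, m * 4 ^ n ≤ r ^ n → r * n ∈ lengths n m) ∧
    (∀ r : ℕ, m * (r + n).choose n ≤ r ^ n → r * n ∈ lengths n m) := by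
  refine ⟨small n m hm hn, ?_, ?_, ?_⟩
  · rintro L ⟨w, hw⟩
    exact (Nat.mul_le_mul_right _ hw).trans (amgm w)
  · intro r hr
    refine ⟨rep n r, ?_⟩
    rcases le_total n r with h | h
    · have : {π : Equiv.Perm (Fin n) | Contains (rep n r) π} = Set.univ :=
        Set.eq_univ_of_forall (rep_all n r h)
      rw [this, Set.ncard_univ, Nat.card_eq_fintype_card, Fintype.card_perm, Fintype.card_fin]
      exact hmn
    · have h1 := rep_count n r
      have h2 : 2 ^ (r + n) ≤ 4 ^ n := by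
        rw [show (4 : ℕ) = 2 ^ 2 by norm_num, ← pow_mul]
        exact Nat.pow_le_pow_right (by norm_num) (by omega)
      have h3 := hr.trans
        (h1.trans (Nat.mul_le_mul_left _ ((Nat.choose_le_two_pow _ _).trans h2)))
      exact Nat.le_of_mul_le_mul_right h3 (by positivity)
  · intro r hr
    exact ⟨rep n r, Nat.le_of_mul_le_mul_right (hr.trans (rep_count n r))
      (Nat.choose_pos (by omega))⟩

lemma binom_small (η : ℝ) (hη : 0 < η) : ∃ N : ℕ, 0 < N ∧ ∀ r n : ℕ, N * r ≤ n →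
    (((r + n).choose n : ℕ) : ℝ) ≤ (1 + η) ^ n := by
  obtain ⟨x, hx0, hx1, hx3⟩ : ∃ x : ℝ, 0 < x ∧ x ≤ 1 ∧ x ≤ η / 3 :=
    ⟨min 1 (η / 3), lt_min one_pos (by linarith), min_le_left _ _, min_le_right _ _⟩
  have h1x : (1 : ℝ) ≤ 1 + x := by linarith
  obtain ⟨N, hN⟩ := pow_unbounded_of_one_lt ((1 + x) / x) (show 1 < 1 + x by linarith)
  refine ⟨N + 1, Nat.succ_pos _, fun r n h => ?_⟩
  have hb : x ^ r * ((r + n).choose n : ℝ) ≤ (1 + x) ^ (r + n) := by
    rw [add_comm 1 x, add_pow]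
    have := Finset.single_le_sum
      (f := fun m => x ^ m * 1 ^ (r + n - m) * ((r + n).choose m : ℝ)) (s := range (r + n + 1))
      (fun i _ => by positivity) (show r ∈ range (r + n + 1) by simp only [mem_range]; omega)
    rw [one_pow, mul_one, Nat.choose_symm_add] at this
    exact this
  have h2 : ((r + n).choose n : ℝ) ≤ ((1 + x) / x) ^ r * (1 + x) ^ n := by
    rw [div_pow, div_mul_eq_mul_div, le_div_iff₀ (by positivity), ← pow_add, mul_comm]
    exact hb
  have h3 : ((1 + x) / x) ^ r ≤ (1 + x) ^ n := by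
    calc ((1 + x) / x) ^ r ≤ ((1 + x) ^ (N + 1)) ^ r :=
          pow_le_pow_left₀ (by positivity)
            (hN.le.trans (pow_le_pow_right₀ h1x (Nat.le_succ N))) r
      _ = (1 + x) ^ ((N + 1) * r) := by rw [pow_mul]
      _ ≤ (1 + x) ^ n := pow_le_pow_right₀ h1x h
  calc ((r + n).choose n : ℝ) ≤ (1 + x) ^ n * (1 + x) ^ n :=
        h2.trans (mul_le_mul_of_nonneg_right h3 (by positivity))
    _ = ((1 + x) * (1 + x)) ^ n := by rw [mul_pow]
    _ ≤ (1 + η) ^ n := pow_le_pow_left₀ (by positivity) (by nlinarith) n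

lemma sharp (ε : ℝ) (hε : 0 < ε) : ∃ K δ : ℝ, 0 < δ ∧ ∀ n m : ℕ, 1 ≤ n →
    K ≤ (m : ℝ) ^ (1 / n : ℝ) → (m : ℝ) ^ (1 / n : ℝ) ≤ δ * n →
    ∃ L ∈ lengths n m, (L : ℝ) ≤ (1 + ε) * (n * (m : ℝ) ^ (1 / n : ℝ)) := by
  obtain ⟨N, hN0, hN⟩ := binom_small (ε / 2) (by linarith)
  have hN0' : (0 : ℝ) < N := by exact_mod_cast hN0
  refine ⟨2 / ε, 1 / ((1 + ε) * N), by positivity, fun n m hn hK hδ => ?_⟩
  have htn : ((m : ℝ) ^ (1 / n : ℝ)) ^ n = m := by
    rw [one_div]; exact Real.rpow_inv_natCast_pow (by positivity) (by omega)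
  have ht0 : 0 ≤ (m : ℝ) ^ (1 / n : ℝ) := by positivity
  generalize (m : ℝ) ^ (1 / n : ℝ) = t at *
  obtain ⟨r, hr1, hr2⟩ : ∃ r : ℕ, (1 + ε / 2) * t ≤ r ∧ (r : ℝ) ≤ (1 + ε) * t := by
    refine ⟨⌈(1 + ε / 2) * t⌉₊, Nat.le_ceil _, ?_⟩
    have := Nat.ceil_lt_add_one (show 0 ≤ (1 + ε / 2) * t by positivity)
    rw [div_le_iff₀ hε] at hK
    nlinarith
  have hr3 : N * r ≤ n := by
    have : (N : ℝ) * r ≤ n := by
      calc (N : ℝ) * r ≤ N * ((1 + ε) * (1 / ((1 + ε) * N) * n)) :=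
            mul_le_mul_of_nonneg_left
              (hr2.trans (mul_le_mul_of_nonneg_left hδ (by positivity))) hN0'.le
        _ = n := by field_simp
    exact_mod_cast this
  have hc := hN r n hr3
  have hfin : m * (r + n).choose n ≤ r ^ n := by
    have : (m : ℝ) * ((r + n).choose n : ℕ) ≤ (r : ℝ) ^ n :=
      calc (m : ℝ) * ((r + n).choose n : ℕ) ≤ t ^ n * (1 + ε / 2) ^ n := by
            rw [htn]; exact mul_le_mul_of_nonneg_left hc (by positivity)
        _ = ((1 + ε / 2) * t) ^ n := by rw [mul_pow]; ring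
        _ ≤ (r : ℝ) ^ n := pow_le_pow_left₀ (by positivity) hr1 n
    exact_mod_cast this
  refine ⟨r * n, ⟨rep n r, Nat.le_of_mul_le_mul_right (hfin.trans (rep_count n r))
      (Nat.choose_pos (by omega))⟩, ?_⟩
  push_cast
  have := mul_le_mul_of_nonneg_right hr2 (Nat.cast_nonneg (α := ℝ) n)
  linarith

lemma lower (n m L : ℕ) (hn : 1 ≤ n) (h : L ∈ lengths n m) :
    (n : ℝ) * (m : ℝ) ^ (1 / n : ℝ) ≤ L := by
  obtain ⟨w, hw⟩ := h
  have h1 : m * n ^ n ≤ L ^ n := (Nat.mul_le_mul_right _ hw).trans (amgm w)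
  have h2 : (m : ℝ) * (n : ℝ) ^ n ≤ (L : ℝ) ^ n := by exact_mod_cast h1
  have htn : ((m : ℝ) ^ (1 / n : ℝ)) ^ n = m := by
    rw [one_div]; exact Real.rpow_inv_natCast_pow (by positivity) (by omega)
  refine le_of_pow_le_pow_left₀ (n := n) (by omega) (by positivity) ?_
  rw [mul_pow, htn, mul_comm]
  exact h2

lemma upper4 (n m : ℕ) (hn : 1 ≤ n) (hm : 1 ≤ m) (hmn : m ≤ n.factorial) :
    ⌈4 * (m : ℝ) ^ (1 / n : ℝ)⌉₊ * n ∈ lengths n m := by
  refine (bounds n m hn hm hmn).2.2.1 _ ?_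
  have htn : ((m : ℝ) ^ (1 / n : ℝ)) ^ n = m := by
    rw [one_div]; exact Real.rpow_inv_natCast_pow (by positivity) (by omega)
  have h := pow_le_pow_left₀ (by positivity) (Nat.le_ceil (4 * (m : ℝ) ^ (1 / n : ℝ))) n
  rw [mul_pow, htn, mul_comm] at h
  exact_mod_cast h

theorem result :
    (∀ n m : ℕ, 1 ≤ n → 1 ≤ m → m ≤ 2 ^ (n - 1) → IsLeast (lengths n m) (n + Nat.clog 2 m)) ∧
    (∀ n m : ℕ, 1 ≤ n → ∀ L ∈ lengths n m, (n : ℝ) * (m : ℝ) ^ (1 / n : ℝ) ≤ L) ∧
    (∀ n m : ℕ, 1 ≤ n → 1 ≤ m → m ≤ n.factorial →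
      ⌈4 * (m : ℝ) ^ (1 / n : ℝ)⌉₊ * n ∈ lengths n m) ∧
    (∀ n m r : ℕ, m * (r + n).choose n ≤ r ^ n → r * n ∈ lengths n m) ∧
    (∀ ε : ℝ, 0 < ε → ∃ K δ : ℝ, 0 < δ ∧ ∀ n m : ℕ, 1 ≤ n →
      K ≤ (m : ℝ) ^ (1 / n : ℝ) → (m : ℝ) ^ (1 / n : ℝ) ≤ δ * n →
      ∃ L ∈ lengths n m, (L : ℝ) ≤ (1 + ε) * (n * (m : ℝ) ^ (1 / n : ℝ))) :=
  ⟨fun n m hn hm h => small n m hm hn h, fun n m hn L h => lower n m L hn h, upper4,
    fun n m r hr => ⟨rep n r, Nat.le_of_mul_le_mul_right (hr.trans (rep_count n r))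
      (Nat.choose_pos (by omega))⟩, sharp⟩

end Pool.Agent.Results.MP_02a1b3_co.Small
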